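import Mathlib

set_option autoImplicit false

/-!
Reduced bases of lattices over the polynomial ring, with respect to real weights at infinity.
-/

open Polynomial Finset

namespace Pool.Agent.R340.HK

/-- A nonempty set of real numbers contained in finitely many sets `c i + ℕ` has a minimum. -/
lemma exists_min {I : Type*} [Finite I] (c : I → ℝ) (T : Set ℝ) (hT : T.Nonempty)
    (h : ∀ v ∈ T, ∃ (i : I) (n : ℕ), v = c i + n) : ∃ v ∈ T, ∀ v' ∈ T, v ≤ v' := by
  obtain ⟨v0, hv0⟩ := hT
  have hfin : (T ∩ Set.Iic v0).Finite := by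
    refine Set.Finite.subset (Set.finite_iUnion fun i : I =>
      ((Set.finite_Iic ⌊v0 - c i⌋₊).image fun n : ℕ => c i + n)) ?_
    rintro v ⟨hv, hv'⟩
    obtain ⟨i, n, rfl⟩ := h v hv
    rw [Set.mem_iUnion]
    refine ⟨i, n, ?_, rfl⟩
    rw [Set.mem_Iic] at hv' ⊢
    exact Nat.le_floor (by linarith)
  obtain ⟨v, hv, hmin⟩ := Set.exists_min_image _ id hfin ⟨v0, hv0, le_refl v0⟩
  refine ⟨v, hv.1, fun v' hv' => ?_⟩
  rcases le_total v' v0 with h1 | h1
  · exact hmin v' ⟨hv', h1⟩
  · exact le_trans hv.2 h1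

lemma coeff_prod_of_le {R ι : Type*} [CommRing R] (s : Finset ι) (f : ι → R[X]) (k : ι → ℕ)
    (h : ∀ i ∈ s, (f i).natDegree ≤ k i) :
    (∏ i ∈ s, f i).coeff (∑ i ∈ s, k i) = ∏ i ∈ s, (f i).coeff (k i) ∧
      (∏ i ∈ s, f i).natDegree ≤ ∑ i ∈ s, k i := by
  classical
  induction s using Finset.induction_on with
  | empty => simp
  | insert i s his ih =>
    obtain ⟨h1, h2⟩ := ih fun i hi => h i (mem_insert_of_mem hi)
    rw [prod_insert his, sum_insert his, prod_insert his]
    have h3 := h i (mem_insert_self _ _)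
    refine ⟨?_, ?_⟩
    · rw [coeff_mul_add_eq_of_natDegree_le h3 h2, h1]
    · exact (natDegree_mul_le).trans (add_le_add h3 h2)

variable {K : Type*} [Field K] {r : ℕ}

/-- The height of a nonzero row. -/
lemma exists_height (u : Fin r → K[X]) (hu : u ≠ 0) (e : Fin r → ℝ) : ∃ v : ℝ,
    (∀ l, u l ≠ 0 → ((u l).natDegree : ℝ) + e l ≤ v) ∧ ∃ l, u l ≠ 0 ∧ v = (u l).natDegree + e l := by
  classical
  obtain ⟨l0, hl0⟩ := Function.ne_iff.1 hu
  obtain ⟨l, hl, hmax⟩ := exists_max_image (univ.filter fun l => u l ≠ 0)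
    (fun l => ((u l).natDegree : ℝ) + e l) ⟨l0, mem_filter.2 ⟨mem_univ _, hl0⟩⟩
  exact ⟨_, fun l' hl' => hmax l' (mem_filter.2 ⟨mem_univ _, hl'⟩), l, (mem_filter.1 hl).2, rfl⟩

/-- The pairs of a change of the basis and the heights of the rows. -/
def Adm (B0 : Matrix (Fin r) (Fin r) K[X]) (e : Fin r → ℝ) (G : Matrix (Fin r) (Fin r) K[X])
    (e' : Fin r → ℝ) : Prop :=
  IsUnit G.det ∧ (∀ i l, (G * B0) i l ≠ 0 → (((G * B0) i l).natDegree : ℝ) + e l ≤ e' i) ∧
    ∀ i, ∃ l, (G * B0) i l ≠ 0 ∧ e' i = ((G * B0) i l).natDegree + e l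

lemma row_ne {B : Matrix (Fin r) (Fin r) K[X]} (hB : B.det ≠ 0) (i : Fin r) : B i ≠ 0 := by
  intro h
  exact hB (Matrix.det_eq_zero_of_row_eq_zero i fun l => congrFun h l)

lemma exists_minimal (B0 : Matrix (Fin r) (Fin r) K[X]) (h0 : B0.det ≠ 0) (e : Fin r → ℝ) :
    ∃ G e', Adm B0 e G e' ∧ ∀ G' e'', Adm B0 e G' e'' → ∑ i, e' i ≤ ∑ i, e'' i := by
  classical
  set T : Set ℝ := {v | ∃ G e', Adm B0 e G e' ∧ v = ∑ i, e' i} with hT
  have hne : T.Nonempty := by
    choose v hv hv' using fun i => exists_height (B0 i) (row_ne h0 i) e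
    refine ⟨∑ i, v i, 1, v, ⟨?_, ?_, ?_⟩, rfl⟩
    · rw [Matrix.det_one]
      exact isUnit_one
    · intro i l h
      rw [Matrix.one_mul] at h ⊢
      exact hv i l h
    · intro i
      rw [Matrix.one_mul]
      exact hv' i
  obtain ⟨v, ⟨G, e', hG, rfl⟩, hmin⟩ := exists_min (fun l : Fin r → Fin r => ∑ i, e (l i)) T hne (by
    rintro v ⟨G, e', hG, rfl⟩
    choose l hl hl' using hG.2.2
    refine ⟨l, ∑ i, ((G * B0) i (l i)).natDegree, ?_⟩
    rw [sum_congr rfl fun i _ => hl' i, sum_add_distrib]
    push_cast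
    ring)
  exact ⟨G, e', hG, fun G' e'' h => hmin _ ⟨G', e'', h, rfl⟩⟩

open Classical in
/-- The matrix of the leading coefficients. -/
noncomputable def lead (B : Matrix (Fin r) (Fin r) K[X]) (e e' : Fin r → ℝ) : Matrix (Fin r) (Fin r) K :=
  Matrix.of fun i l => if ((⌊e' i - e l⌋₊ : ℕ) : ℝ) = e' i - e l then (B i l).coeff ⌊e' i - e l⌋₊ else 0

lemma lead_of_eq {B : Matrix (Fin r) (Fin r) K[X]} {e e' : Fin r → ℝ} {i l : Fin r} {k : ℕ}
    (h : (k : ℝ) = e' i - e l) : lead B e e' i l = (B i l).coeff k := by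
  unfold lead
  rw [Matrix.of_apply, ← h, Nat.floor_natCast, if_pos rfl]

lemma lead_of_ne {B : Matrix (Fin r) (Fin r) K[X]} {e e' : Fin r → ℝ} {i l : Fin r}
    (h : ∀ k : ℕ, (k : ℝ) ≠ e' i - e l) : lead B e e' i l = 0 := by
  unfold lead
  rw [Matrix.of_apply, if_neg (h _)]

/-- The matrix of the leading coefficients of a minimal basis is invertible. -/
lemma lead_det {B0 : Matrix (Fin r) (Fin r) K[X]} (h0 : B0.det ≠ 0) {e e' : Fin r → ℝ}
    {G : Matrix (Fin r) (Fin r) K[X]} (hG : Adm B0 e G e')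
    (hmin : ∀ G' e'', Adm B0 e G' e'' → ∑ i, e' i ≤ ∑ i, e'' i) : (lead (G * B0) e e').det ≠ 0 := by
  classical
  intro hdet
  set B := G * B0 with hB
  obtain ⟨c, hc0, hc⟩ := Matrix.exists_vecMul_eq_zero_iff.2 hdet
  obtain ⟨i1, hi1⟩ := Function.ne_iff.1 hc0
  obtain ⟨i0, hi0, hmax⟩ := exists_max_image (univ.filter fun i => c i ≠ 0) e'
    ⟨i1, mem_filter.2 ⟨mem_univ _, hi1⟩⟩
  have hci0 : c i0 ≠ 0 := (mem_filter.1 hi0).2
  have hmax' : ∀ i, c i ≠ 0 → e' i ≤ e' i0 := fun i hi => hmax i (mem_filter.2 ⟨mem_univ _, hi⟩)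
  set n : Fin r → ℕ := fun i => ⌊e' i0 - e' i⌋₊ with hn
  set c' : Fin r → K := fun i => if ((n i : ℕ) : ℝ) = e' i0 - e' i then c i else 0 with hc'
  have hni0 : n i0 = 0 := by simp [hn]
  have hc'i0 : c' i0 = c i0 := by
    simp [hc', hni0]
  set a : Fin r → K[X] := fun i => C (c' i) * X ^ n i with ha
  set G' := G.updateRow i0 (∑ k, a k • G k) with hG'
  set R : Fin r → K[X] := fun l => ∑ k, a k * B k l with hR
  have hGB : ∀ i l, (G' * B0) i l = if i = i0 then R l else B i l := by
    intro i l
    rw [Matrix.mul_apply]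
    split_ifs with h
    · subst h
      simp only [hG', Matrix.updateRow_self, Finset.sum_apply, Pi.smul_apply, smul_eq_mul, hR, hB,
        Matrix.mul_apply, sum_mul, mul_sum]
      rw [sum_comm]
      refine sum_congr rfl fun k _ => sum_congr rfl fun j _ => by ring
    · rw [hB, Matrix.mul_apply]
      refine sum_congr rfl fun j _ => ?_
      rw [hG', Matrix.updateRow_ne h]
  have hdetG' : G'.det = a i0 • G.det := by
    rw [hG']
    exact Matrix.det_updateRow_sum G i0 a
  have hunit : IsUnit G'.det := by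
    rw [hdetG', smul_eq_mul]
    refine IsUnit.mul ?_ hG.1
    simp only [ha, hni0, pow_zero, mul_one, hc'i0]
    exact isUnit_C.2 (isUnit_iff_ne_zero.2 hci0)
  have hdet' : (G' * B0).det ≠ 0 := by
    rw [Matrix.det_mul]
    exact mul_ne_zero hunit.ne_zero h0
  have hRne : R ≠ 0 := by
    have := row_ne hdet' i0
    intro h
    apply this
    funext l
    rw [hGB, if_pos rfl, h]
  -- the degrees of the new row
  have hdeg : ∀ l, R l ≠ 0 → ((R l).natDegree : ℝ) + e l < e' i0 := by
    intro l hl
    set d := (R l).natDegree with hd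
    have hcd : (R l).coeff d ≠ 0 := by
      rw [hd]
      exact leadingCoeff_ne_zero.2 hl
    have hterm : ∀ i, (a i * B i l).coeff d = if n i ≤ d then c' i * (B i l).coeff (d - n i) else 0 := by
      intro i
      rw [ha]
      simp only
      rw [mul_assoc, coeff_C_mul, mul_comm (X ^ n i), coeff_mul_X_pow']
      split_ifs <;> simp
    have hsum : (R l).coeff d = ∑ i, if n i ≤ d then c' i * (B i l).coeff (d - n i) else 0 := by
      rw [hR]
      simp only [finsetSum_coeff]
      exact sum_congr rfl fun i _ => hterm i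
    have hle : (d : ℝ) + e l ≤ e' i0 := by
      rw [hsum] at hcd
      obtain ⟨i, -, hi⟩ := exists_ne_zero_of_sum_ne_zero hcd
      have hnd : n i ≤ d := by
        by_contra h
        rw [if_neg h] at hi
        exact hi rfl
      rw [if_pos hnd] at hi
      have hci : c' i ≠ 0 := left_ne_zero_of_mul hi
      have hco : (B i l).coeff (d - n i) ≠ 0 := right_ne_zero_of_mul hi
      have hni : ((n i : ℕ) : ℝ) = e' i0 - e' i := by
        by_contra h
        apply hci
        simp only [hc', if_neg h]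
      have hBl : B i l ≠ 0 := by
        intro h
        rw [h, coeff_zero] at hco
        exact hco rfl
      have h1 := le_natDegree_of_ne_zero hco
      have h2 := hG.2.1 i l hBl
      have h3 : ((d - n i : ℕ) : ℝ) ≤ ((B i l).natDegree : ℝ) := by exact_mod_cast h1
      rw [Nat.cast_sub hnd] at h3
      linarith
    refine lt_of_le_of_ne hle fun heq => hcd ?_
    rw [hsum]
    have h1 : ∑ i, c i * lead B e e' i l = 0 := by
      have := congrFun hc l
      simpa [Matrix.vecMul, dotProduct] using this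
    refine Eq.trans ?_ h1
    refine sum_congr rfl fun i _ => ?_
    by_cases hci : c i = 0
    · have : c' i = 0 := by
        simp only [hc', hci, ite_self]
      rw [this, hci]
      simp
    · by_cases hni : ((n i : ℕ) : ℝ) = e' i0 - e' i
      · have h2 : c' i = c i := by simp only [hc', if_pos hni]
        by_cases hnd : n i ≤ d
        · have h3 : ((d - n i : ℕ) : ℝ) = e' i - e l := by
            rw [Nat.cast_sub hnd]
            linarith
          rw [if_pos hnd, h2, lead_of_eq h3]
        · have h3 : lead B e e' i l = 0 := by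
            apply lead_of_ne
            intro k hk
            have h4 : (d : ℝ) < n i := by exact_mod_cast not_le.1 hnd
            have h5 : (0 : ℝ) ≤ k := Nat.cast_nonneg _
            linarith
          rw [if_neg hnd, h3, mul_zero]
      · have h2 : c' i = 0 := by simp only [hc', if_neg hni]
        have h3 : lead B e e' i l = 0 := by
          apply lead_of_ne
          intro k hk
          apply hni
          have h4 := hmax' i hci
          have h5 : e' i0 - e' i = ((d : ℤ) - (k : ℤ) : ℤ) := by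
            push_cast
            linarith
          have h6 : (0 : ℤ) ≤ (d : ℤ) - k := by
            have : (0 : ℝ) ≤ (((d : ℤ) - (k : ℤ) : ℤ) : ℝ) := by
              rw [← h5]
              linarith
            exact_mod_cast this
          obtain ⟨t, ht⟩ := Int.eq_ofNat_of_zero_le h6
          rw [ht] at h5
          have h7 : e' i0 - e' i = (t : ℝ) := by
            rw [h5]
            norm_cast
          rw [hn]
          simp only
          rw [h7, Nat.floor_natCast]
        rw [h2, h3]
        simp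
  obtain ⟨v, hv, lv, hlv, hvl⟩ := exists_height R hRne e
  have hlt : v < e' i0 := by
    rw [hvl]
    exact hdeg lv hlv
  have hadm : Adm B0 e G' (Function.update e' i0 v) := by
    refine ⟨hunit, fun i l h => ?_, fun i => ?_⟩
    · by_cases hi : i = i0
      · rw [hi] at h ⊢
        rw [hGB, if_pos rfl] at h ⊢
        rw [Function.update_self]
        exact hv l h
      · rw [hGB, if_neg hi] at h ⊢
        rw [Function.update_of_ne hi]
        exact hG.2.1 i l h
    · by_cases hi : i = i0
      · refine ⟨lv, ?_⟩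
        rw [hi, hGB, if_pos rfl, Function.update_self]
        exact ⟨hlv, hvl⟩
      · obtain ⟨l, hl, hl'⟩ := hG.2.2 i
        refine ⟨l, ?_⟩
        rw [hGB, if_neg hi, Function.update_of_ne hi]
        exact ⟨hl, hl'⟩
  have h1 := hmin _ _ hadm
  have h2 : ∑ i, Function.update e' i0 v i < ∑ i, e' i := by
    refine sum_lt_sum (fun i _ => ?_) ⟨i0, mem_univ _, ?_⟩
    · by_cases hi : i = i0
      · rw [hi, Function.update_self]
        exact hlt.le
      · rw [Function.update_of_ne hi]
    · rw [Function.update_self]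
      exact hlt
  exact absurd h1 (not_le.2 h2)

/-- **Reduced bases.** -/
theorem exists_reduced (B0 : Matrix (Fin r) (Fin r) K[X]) (h0 : B0.det ≠ 0) (e : Fin r → ℝ) :
    ∃ (G : Matrix (Fin r) (Fin r) K[X]) (e' : Fin r → ℝ) (σ : Equiv.Perm (Fin r)), IsUnit G.det ∧
      (∀ i l, (G * B0) i l ≠ 0 → (((G * B0) i l).natDegree : ℝ) + e l ≤ e' i) ∧
      (∀ l, ∃ k : ℤ, e' l = e (σ l) + k) ∧ ∑ i, e' i = B0.det.natDegree + ∑ l, e l := by
  classical
  obtain ⟨G, e', hG, hmin⟩ := exists_minimal B0 h0 e
  have hL := lead_det h0 hG hmin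
  set B := G * B0 with hB
  have hBdet : B.det ≠ 0 := by
    rw [hB, Matrix.det_mul]
    exact mul_ne_zero hG.1.ne_zero h0
  -- the permutation
  obtain ⟨σ, hσ⟩ : ∃ σ : Equiv.Perm (Fin r), ∀ i, lead B e e' i (σ i) ≠ 0 := by
    rw [← Matrix.det_transpose, Matrix.det_apply'] at hL
    obtain ⟨σ, -, h⟩ := exists_ne_zero_of_sum_ne_zero hL
    refine ⟨σ, fun i => ?_⟩
    have h1 := right_ne_zero_of_mul h
    have h2 := prod_ne_zero_iff.1 h1 i (mem_univ _)
    simpa using h2
  have hk : ∀ i, ∃ k : ℕ, (k : ℝ) = e' i - e (σ i) := by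
    intro i
    by_contra hcon
    push Not at hcon
    exact hσ i (lead_of_ne hcon)
  choose k hk using hk
  have hsumk : ((∑ i, k i : ℕ) : ℝ) = ∑ i, e' i - ∑ l, e l := by
    push_cast
    rw [sum_congr rfl fun i _ => hk i, sum_sub_distrib, Equiv.sum_comp σ e]
  refine ⟨G, e', σ, hG.1, hG.2.1, fun l => ⟨k l, by have := hk l; push_cast; linarith⟩, ?_⟩
  -- the degree of the determinant
  set m := ∑ i, k i with hm
  have hterm : ∀ τ : Equiv.Perm (Fin r), (∏ i, B i (τ i)).coeff m = ∏ i, lead B e e' i (τ i) ∧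
      (∏ i, B i (τ i) ≠ 0 → (∏ i, B i (τ i)).natDegree ≤ m) := by
    intro τ
    by_cases hz : ∃ i, B i (τ i) = 0
    · obtain ⟨i, hi⟩ := hz
      rw [prod_eq_zero (mem_univ i) hi]
      refine ⟨?_, fun h => absurd rfl h⟩
      rw [coeff_zero, prod_eq_zero (mem_univ i)]
      unfold lead
      rw [Matrix.of_apply, hi, coeff_zero, ite_self]
    · push Not at hz
      have hτs : ((∑ i, k i : ℕ) : ℝ) = ∑ i, (e' i - e (τ i)) := by
        rw [hsumk, sum_sub_distrib, Equiv.sum_comp τ e]
      have hdeg : ∀ i, ((B i (τ i)).natDegree : ℝ) ≤ e' i - e (τ i) := fun i => by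
        have := hG.2.1 i (τ i) (hz i)
        linarith
      have hnd : (∏ i, B i (τ i)).natDegree = ∑ i, (B i (τ i)).natDegree :=
        natDegree_prod _ _ fun i _ => hz i
      have hle : (∏ i, B i (τ i)).natDegree ≤ m := by
        have : ((∑ i, (B i (τ i)).natDegree : ℕ) : ℝ) ≤ (m : ℕ) := by
          rw [hτs]
          push_cast
          exact sum_le_sum fun i _ => hdeg i
        rw [hnd]
        exact_mod_cast this
      refine ⟨?_, fun _ => hle⟩
      by_cases hnat : ∀ i, ∃ t : ℕ, (t : ℝ) = e' i - e (τ i)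
      · choose t ht using hnat
        have hts : ∑ i, t i = m := by
          have : ((∑ i, t i : ℕ) : ℝ) = (m : ℕ) := by
            rw [hτs]
            push_cast
            exact sum_congr rfl fun i _ => ht i
          exact_mod_cast this
        have h1 := (coeff_prod_of_le univ (fun i => B i (τ i)) t (by
          intro i _
          have := hdeg i
          rw [← ht i] at this
          exact_mod_cast this)).1
        rw [hts] at h1
        rw [h1]
        exact prod_congr rfl fun i _ => (lead_of_eq (ht i)).symm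
      · push Not at hnat
        obtain ⟨i, hi⟩ := hnat
        have hz0 : ∏ i, lead B e e' i (τ i) = 0 := prod_eq_zero (mem_univ i) (lead_of_ne hi)
        rw [hz0]
        apply coeff_eq_zero_of_natDegree_lt
        rw [hnd]
        have : ((∑ i, (B i (τ i)).natDegree : ℕ) : ℝ) < (m : ℕ) := by
          rw [hτs]
          push_cast
          exact sum_lt_sum (fun i _ => hdeg i) ⟨i, mem_univ _, lt_of_le_of_ne (hdeg i) (hi _)⟩
        exact_mod_cast this
  have hcoeff : B.det.coeff m = (lead B e e').det := by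
    rw [← Matrix.det_transpose B, ← Matrix.det_transpose (lead B e e'), Matrix.det_apply,
      Matrix.det_apply, finsetSum_coeff]
    refine sum_congr rfl fun τ _ => ?_
    have h1 := (hterm τ).1
    simp only [Matrix.transpose_apply]
    rw [← h1, Units.smul_def, Units.smul_def, zsmul_eq_mul, zsmul_eq_mul, ← C_eq_intCast,
      coeff_C_mul]
  have hge : m ≤ B.det.natDegree := by
    apply le_natDegree_of_ne_zero
    rw [hcoeff]
    exact hL
  have hle : B.det.natDegree ≤ m := by
    rw [← Matrix.det_transpose B, Matrix.det_apply]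
    refine natDegree_sum_le_of_forall_le _ _ fun τ _ => ?_
    by_cases hz : ∏ i, B i (τ i) = 0
    · simp only [Matrix.transpose_apply]
      rw [hz]
      simp
    · refine (natDegree_smul_le _ _).trans ?_
      simp only [Matrix.transpose_apply]
      exact (hterm τ).2 hz
  have heq : B.det.natDegree = B0.det.natDegree := by
    rw [hB, Matrix.det_mul, natDegree_mul hG.1.ne_zero h0, natDegree_eq_zero_of_isUnit hG.1, zero_add]
  have h1 : (m : ℝ) = ∑ i, e' i - ∑ l, e l := hsumk
  have h2 : m = B0.det.natDegree := by omega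
  rw [← h2, h1]
  ring

end Pool.Agent.R340.HK
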