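import Pool.Agent.R340.HK.Res

set_option autoImplicit false

/-!
Irreducible operators with three points with non-integral exponents and index of rigidity at least
zero.
-/

open Polynomial Finset

namespace Pool.Agent.R340.HK

open Pool.Agent.Y227.SS Pool.Agent.W432.WB Pool.Agent.W432.HK Pool.Agent.Y227.SO
open Pool.Agent.R340.SY

variable {m n N : ℕ} {lam : Fin m → Fin n → ℚ} {phi : Fin n → ℚ} {E : Option (Fin m) → Fin n → ℤ}
  {b : Fin (n + 1) → ℤ[X]} {α : Fin m → AlgebraicClosure ℚ}

lemma commonDen_of (hN : 0 < N) (hlam : ∀ j l, lam j l = (E (some j) l : ℚ) / N)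
    (hphi : ∀ l, phi l = -(E none l : ℚ) / N) : CommonDen lam phi N := by
  have hNq : (N : ℚ) ≠ 0 := by exact_mod_cast hN.ne'
  refine ⟨hN, fun j l => ⟨E (some j) l, ?_⟩, fun l => ⟨-E none l, ?_⟩⟩
  · rw [hlam]
    field_simp
  · rw [hphi]
    push_cast
    field_simp

/-- The case without resonance. -/
theorem nonres_op (hm : 1 ≤ m) (hn : 2 ≤ n) (hF : FuchsianWith b α lam phi) (hirr : ¬ Reducible b)
    (hN : 1 < N) (hbad : ¬ BadClass b N) (hlam : ∀ j l, lam j l = (E (some j) l : ℚ) / N)
    (hphi : ∀ l, phi l = -(E none l : ℚ) / N) (j : Fin 2 ↪ Fin m)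
    (hint : ∀ x, x ∉ Set.range j → ∀ l, (N : ℤ) ∣ E (some x) l)
    (hdiff : ∀ i l l', IsCoprime (E (some (j i)) l - E (some (j i)) l') (N : ℤ) ∨
      (N : ℤ) ∣ E (some (j i)) l - E (some (j i)) l')
    (hdiff' : ∀ l l', IsCoprime (E none l - E none l') (N : ℤ) ∨ (N : ℤ) ∣ E none l - E none l')
    (hres : ∀ k0 k1 k2, IsCoprime (E (some (j 0)) k0 + E (some (j 1)) k1 + E none k2) (N : ℤ))
    (hind : (n : ℤ) ^ 2 ≤ cong N (E (some (j 0))) + cong N (E (some (j 1))) + cong N (E none)) :
    False := by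
  classical
  have hN0 : 0 < N := by omega
  have hNq : (N : ℚ) ≠ 0 := by exact_mod_cast hN0.ne'
  have hNR : (N : ℝ) ≠ 0 := by exact_mod_cast hN0.ne'
  have hCD := commonDen_of hN0 hlam hphi
  obtain ⟨F, hFu⟩ := fuchs_int hm hn hF
  have hFz : ∑ x, ∑ l, E (some x) l + ∑ l, E none l = N * F := by
    have h1 : ((∑ x, ∑ l, E (some x) l + ∑ l, E none l : ℤ) : ℚ) = ((N * F : ℤ) : ℚ) := by
      simp only [hlam, hphi, ← sum_div, sum_neg_distrib] at hFu
      push_cast
      field_simp at hFu
      linear_combination hFu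
    exact_mod_cast h1
  -- the integral points
  obtain ⟨z, hz⟩ : (N : ℤ) ∣ ∑ x ∈ (univ.map j)ᶜ, ∑ l, E (some x) l := by
    refine dvd_sum fun x hx => dvd_sum fun l _ => hint x (fun ⟨i, hi⟩ => ?_) l
    rw [Finset.mem_compl] at hx
    exact hx (Finset.mem_map.2 ⟨i, mem_univ _, hi⟩)
  have hsplit : ∑ x, ∑ l, E (some x) l = ∑ l, E (some (j 0)) l + ∑ l, E (some (j 1)) l + N * z := by
    rw [← Finset.sum_add_sum_compl (univ.map j) (fun x => ∑ l, E (some x) l), Finset.sum_map,
      Fin.sum_univ_two, hz]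
  let l0 : Fin n := ⟨0, by omega⟩
  let e : Fin 2 → Fin n → ℤ := fun i => E (some (j i))
  let e' : Fin n → ℤ := fun l => -E none l + if l = l0 then N * (F - z) else 0
  have he' : ∀ l, ∃ k : ℤ, e' l = -E none l + N * k := by
    intro l
    by_cases h : l = l0
    · exact ⟨F - z, by simp only [e', if_pos h]⟩
    · exact ⟨0, by simp only [e', if_neg h, mul_zero]⟩
  refine nonres hN (by omega) e e' ?_ (fun i l l' => hdiff i l l') (fun l l' => ?_)
    (fun k0 k1 k2 => ?_) ?_ fun a ha => ?_
  · have h1 : ∑ l, e' l = -∑ l, E none l + N * (F - z) := by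
      simp only [e', sum_add_distrib, sum_neg_distrib, sum_ite_eq', mem_univ, if_true]
    rw [h1]
    change ∑ l, E (some (j 0)) l + ∑ l, E (some (j 1)) l = _
    linear_combination hFz - hsplit
  · obtain ⟨s, hs⟩ := he' l
    obtain ⟨t, ht⟩ := he' l'
    have h3 : e' l - e' l' = -(E none l - E none l') + N * (s - t) := by
      rw [hs, ht]
      ring
    rw [h3]
    rcases hdiff' l l' with h | h
    · left
      exact h.neg_left.add_mul_left_left (s - t)
    · right
      exact dvd_add ((dvd_neg).2 h) (dvd_mul_right _ _)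
  · obtain ⟨k, hk⟩ := he' k2
    have h1 : e 0 k0 + e 1 k1 - e' k2 =
        (E (some (j 0)) k0 + E (some (j 1)) k1 + E none k2) + N * (-k) := by
      rw [hk]
      simp only [e]
      ring
    rw [h1]
    exact (hres k0 k1 k2).add_mul_left_left (-k)
  · have h1 : cong N e' = cong N (E none) := by
      unfold cong
      refine sum_congr rfl fun i _ => sum_congr rfl fun k _ => ?_
      obtain ⟨s, hs⟩ := he' i
      obtain ⟨t, ht⟩ := he' k
      have h2 : (N : ℤ) ∣ e' i - e' k ↔ (N : ℤ) ∣ E none i - E none k := by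
        have h3 : e' i - e' k = -(E none i - E none k) + N * (s - t) := by
          rw [hs, ht]
          ring
        rw [h3, dvd_add_left (dvd_mul_right _ _), dvd_neg]
      simp only [h2]
    rw [h1]
    exact hind
  · have hst : StableWeights ℂ (fun j l => (a : ℝ) * lam j l) (fun l => (a : ℝ) * phi l) := by
      by_contra hst
      exact hbad ⟨a, ha, bad_class (by omega) (by omega) hF hCD a (Or.inr ⟨hirr, hst⟩)⟩
    have h1 := stableWeights_drop hst j (by
      intro x hx l
      obtain ⟨w, hw⟩ := hint x hx l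
      refine ⟨a * w, ?_⟩
      rw [hlam, hw]
      push_cast
      field_simp)
    refine stableWeights_congr h1 (fun i l => ⟨0, ?_⟩) (fun l => ?_)
    · simp only [e, hlam]
      push_cast
      ring
    · obtain ⟨k, hk⟩ := he' l
      refine ⟨-(a * k), ?_⟩
      rw [hk, hphi]
      push_cast
      field_simp
      ring

/-- The case without resonance, infinity being the last of the three points. -/
theorem nonres_three (hn : 2 ≤ n) (hF : FuchsianWith b α lam phi) (hirr : ¬ Reducible b)
    (hN : 1 < N) (hbad : ¬ BadClass b N) (hlam : ∀ j l, lam j l = (E (some j) l : ℚ) / N)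
    (hphi : ∀ l, phi l = -(E none l : ℚ) / N) (P : Fin 3 ↪ Option (Fin m)) (hP2 : P 2 = none)
    (hint : ∀ x, x ∉ Set.range P → ∀ l, (N : ℤ) ∣ E x l)
    (hdiff : ∀ i l l', IsCoprime (E (P i) l - E (P i) l') (N : ℤ) ∨
      (N : ℤ) ∣ E (P i) l - E (P i) l')
    (hres : ∀ κ : Fin 3 → Fin n, IsCoprime (∑ i, E (P i) (κ i)) (N : ℤ))
    (hind : (n : ℤ) ^ 2 ≤ ∑ i, cong N (E (P i))) : False := by
  obtain ⟨j0, hj0⟩ : ∃ j0, P 0 = some j0 := by
    cases h : P 0 with
    | none =>
      rw [← hP2] at h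
      exact absurd (P.injective h) (by decide)
    | some j => exact ⟨j, rfl⟩
  obtain ⟨j1, hj1⟩ : ∃ j1, P 1 = some j1 := by
    cases h : P 1 with
    | none =>
      rw [← hP2] at h
      exact absurd (P.injective h) (by decide)
    | some j => exact ⟨j, rfl⟩
  have hne : j0 ≠ j1 := by
    intro h
    rw [h, ← hj1] at hj0
    exact absurd (P.injective hj0) (by decide)
  let j : Fin 2 ↪ Fin m := ⟨![j0, j1], by
    intro x y h
    fin_cases x <;> fin_cases y <;> simp_all⟩
  have e0 : j 0 = j0 := rfl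
  have e1 : j 1 = j1 := rfl
  have hm : 1 ≤ m := by
    rcases Nat.eq_zero_or_pos m with h | h
    · subst h
      exact absurd j0.2 (by omega)
    · exact h
  refine nonres_op hm hn hF hirr hN hbad hlam hphi j (fun x hx l => ?_) (fun i l l' => ?_)
    (fun l l' => ?_) (fun k0 k1 k2 => ?_) ?_
  · refine hint (some x) ?_ l
    rintro ⟨i, hi⟩
    apply hx
    have hi3 : i = 0 ∨ i = 1 ∨ i = 2 := by
      fin_cases i <;> simp
    rcases hi3 with rfl | rfl | rfl
    · rw [hj0] at hi
      exact ⟨0, by rw [e0]; exact Option.some.inj hi⟩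
    · rw [hj1] at hi
      exact ⟨1, by rw [e1]; exact Option.some.inj hi⟩
    · rw [hP2] at hi
      exact absurd hi (by simp)
  · have hi3 : i = 0 ∨ i = 1 := by
      fin_cases i <;> simp
    rcases hi3 with rfl | rfl
    · rw [e0, ← hj0]
      exact hdiff 0 l l'
    · rw [e1, ← hj1]
      exact hdiff 1 l l'
  · rw [← hP2]
    exact hdiff 2 l l'
  · rw [e0, e1, ← hj0, ← hj1, ← hP2]
    have := hres ![k0, k1, k2]
    rw [Fin.sum_univ_three] at this
    simpa using this
  · rw [e0, e1, ← hj0, ← hj1, ← hP2]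
    rw [Fin.sum_univ_three] at hind
    exact hind

lemma cong_eq {f : Fin n → ℤ} {c : ℕ} (hc : ∀ l, cnt N f (f l) = c) : cong N f = n * c := by
  unfold cong
  have h1 : ∀ i, (∑ j, if (N : ℤ) ∣ f i - f j then (1 : ℤ) else 0) = c := by
    intro i
    rw [← hc i]
    unfold cnt
    rw [card_filter]
    push_cast
    refine sum_congr rfl fun j _ => ?_
    have h2 : (N : ℤ) ∣ f i - f j ↔ (N : ℤ) ∣ f j - f i := by
      rw [← dvd_neg, neg_sub]
    simp only [h2]
  rw [sum_congr rfl fun i _ => h1 i, sum_const, card_univ, Fintype.card_fin, nsmul_eq_mul]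

/-- For the prime number two there are at most two classes. -/
lemma two_classes {f : Fin n → ℤ} {c : ℕ} (hc : ∀ l, cnt 2 f (f l) = c) (hn : 0 < n) : n ≤ 2 * c := by
  classical
  set l0 : Fin n := ⟨0, hn⟩
  by_cases h : ∀ l, ((2 : ℕ) : ℤ) ∣ f l - f l0
  · have h1 := hc l0
    unfold cnt at h1
    rw [filter_true_of_mem fun l _ => h l, card_univ, Fintype.card_fin] at h1
    omega
  · push Not at h
    obtain ⟨l1, hl1⟩ := h
    have h1 := hc l0
    have h2 := hc l1
    unfold cnt at h1 h2
    have h3 : (univ : Finset (Fin n)) = (univ.filter fun l => ((2 : ℕ) : ℤ) ∣ f l - f l0) ∪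
        (univ.filter fun l => ((2 : ℕ) : ℤ) ∣ f l - f l1) := by
      ext l
      simp only [mem_union, mem_filter, mem_univ, true_and, true_iff]
      push_cast at hl1 ⊢
      omega
    have h4 := card_union_le (univ.filter fun l => ((2 : ℕ) : ℤ) ∣ f l - f l0)
      (univ.filter fun l => ((2 : ℕ) : ℤ) ∣ f l - f l1)
    rw [← h3, card_univ, Fintype.card_fin, h1, h2] at h4
    omega

/-- The types with equal multiplicities, one of the points having two classes; infinity is the last
point. -/
theorem bad_of_types (hn : 0 < n) (hF : FuchsianWith b α lam phi) (hirr : ¬ Reducible b)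
    (hN : N.Prime) (hlam : ∀ j l, lam j l = (E (some j) l : ℚ) / N)
    (hphi : ∀ l, phi l = -(E none l : ℚ) / N) (P : Fin 3 ↪ Option (Fin m)) (hP2 : P 2 = none)
    (hint : ∀ x, x ∉ Set.range P → ∀ l, (N : ℤ) ∣ E x l) (c : Fin 3 → ℕ)
    (hc : ∀ i l, cnt N (E (P i)) (E (P i) l) = c i) (hsum : ∑ i, c i = n)
    (h2 : ∃ i, 2 * c i = n) : BadClass b N := by
  classical
  by_contra hbad
  have hc0 : ∀ i, 0 < c i := by
    intro i
    rw [← hc i ⟨0, hn⟩]
    exact card_pos.2 ⟨⟨0, hn⟩, mem_filter.2 ⟨mem_univ _, by simp⟩⟩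
  have c0 := hc0 0
  have c1 := hc0 1
  have c2 := hc0 2
  have hsum' := hsum
  rw [Fin.sum_univ_three] at hsum'
  have hn2 : 2 ≤ n := by omega
  have hm : 1 ≤ m := by
    rcases Nat.eq_zero_or_pos m with h | h
    · subst h
      have h3 := Fintype.card_le_of_injective P P.injective
      simp at h3
    · exact h
  have hodd : Odd N := by
    rcases hN.eq_two_or_odd' with h | h
    · exfalso
      subst h
      have t0 := two_classes (hc 0) hn
      have t1 := two_classes (hc 1) hn
      have t2 := two_classes (hc 2) hn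
      omega
    · exact h
  by_cases hres : ∃ κ : Fin 3 → Fin n, (N : ℤ) ∣ ∑ i, E (P i) (κ i)
  · obtain ⟨κ, hκ⟩ := hres
    rw [Fin.sum_univ_three] at hκ
    have hsym := fun (β : Fin 3 → ℤ) (h1 : ∀ i, cnt N (E (P i)) (β i) = c i)
      (h2 : (N : ℤ) ∣ ∑ i, β i) (r : ℤ) (hr : ¬ (N : ℤ) ∣ r) =>
      sym_three hm hn2 hF hirr hN hbad hlam hphi P hint c hsum β h1 h2 r hr
    have hex : ∀ i, ∃ l, (N : ℤ) ∣ E (P i) l - E (P i) (κ i) := fun i => ⟨κ i, by simp⟩
    obtain ⟨i, hi⟩ := h2
    have hi3 : i = 0 ∨ i = 1 ∨ i = 2 := by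
      fin_cases i <;> simp
    rcases hi3 with rfl | rfl | rfl
    · refine core_contra hodd (hc 1) (hc 2) (hc 0) (by omega) hi c2
        (fun α β γ hα hβ hγ hd r hr => ?_) (hex 1) (hex 2) (hex 0) (by
          have : E (P 1) (κ 1) + E (P 2) (κ 2) + E (P 0) (κ 0) =
            E (P 0) (κ 0) + E (P 1) (κ 1) + E (P 2) (κ 2) := by ring
          rwa [this])
      have := hsym ![γ, α, β] (by
        intro i
        fin_cases i
        · exact cnt_of (hc 0) hγ
        · exact cnt_of (hc 1) hα
        · exact cnt_of (hc 2) hβ) (by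
        rw [Fin.sum_univ_three]
        simp only [Matrix.cons_val_zero, Matrix.cons_val_one, Matrix.cons_val]
        have : γ + α + β = α + β + γ := by ring
        rwa [this]) r hr
      simp only [Fin.sum_univ_three, Matrix.cons_val_zero, Matrix.cons_val_one, Matrix.cons_val] at this
      omega
    · refine core_contra hodd (hc 0) (hc 2) (hc 1) (by omega) hi c2
        (fun α β γ hα hβ hγ hd r hr => ?_) (hex 0) (hex 2) (hex 1) (by
          have : E (P 0) (κ 0) + E (P 2) (κ 2) + E (P 1) (κ 1) =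
            E (P 0) (κ 0) + E (P 1) (κ 1) + E (P 2) (κ 2) := by ring
          rwa [this])
      have := hsym ![α, γ, β] (by
        intro i
        fin_cases i
        · exact cnt_of (hc 0) hα
        · exact cnt_of (hc 1) hγ
        · exact cnt_of (hc 2) hβ) (by
        rw [Fin.sum_univ_three]
        simp only [Matrix.cons_val_zero, Matrix.cons_val_one, Matrix.cons_val]
        have : α + γ + β = α + β + γ := by ring
        rwa [this]) r hr
      simp only [Fin.sum_univ_three, Matrix.cons_val_zero, Matrix.cons_val_one, Matrix.cons_val] at this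
      omega
    · refine core_contra hodd (hc 0) (hc 1) (hc 2) (by omega) hi c1
        (fun α β γ hα hβ hγ hd r hr => ?_) (hex 0) (hex 1) (hex 2) hκ
      have := hsym ![α, β, γ] (by
        intro i
        fin_cases i
        · exact cnt_of (hc 0) hα
        · exact cnt_of (hc 1) hβ
        · exact cnt_of (hc 2) hγ) (by
        rw [Fin.sum_univ_three]
        simp only [Matrix.cons_val_zero, Matrix.cons_val_one, Matrix.cons_val]
        exact hd) r hr
      simp only [Fin.sum_univ_three, Matrix.cons_val_zero, Matrix.cons_val_one, Matrix.cons_val] at this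
      omega
  · push Not at hres
    have hpr := Nat.prime_iff_prime_int.1 hN
    have hcop : ∀ {z : ℤ}, ¬ (N : ℤ) ∣ z → IsCoprime z (N : ℤ) := fun {z} hz =>
      (hpr.coprime_iff_not_dvd.2 hz).symm
    refine nonres_three hn2 hF hirr hN.one_lt hbad hlam hphi P hP2 hint (fun i l l' => ?_)
      (fun κ => hcop (hres κ)) ?_
    · by_cases h : (N : ℤ) ∣ E (P i) l - E (P i) l'
      · exact Or.inr h
      · exact Or.inl (hcop h)
    · rw [Fin.sum_univ_three, cong_eq (hc 0), cong_eq (hc 1), cong_eq (hc 2)]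
      have : (n : ℤ) = c 0 + c 1 + c 2 := by exact_mod_cast hsum'.symm
      nlinarith

end Pool.Agent.R340.HK
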