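import Pool.Agent.R340.HK.Shift
import Pool.Agent.R340.SY.Final
import Pool.Agent.R340.HK.Arith3

set_option autoImplicit false

/-!
Three points, one of them at infinity, and any number of points with integral exponents, without
resonance: the inequality of R927 applied to the weights after elementary modifications.
-/

open Polynomial Finset

namespace Pool.Agent.R340.HK

open Pool.Agent.Y227.SS Pool.Agent.W432.WB Pool.Agent.W432.HK Pool.Agent.Y227.SO
open Pool.Agent.R927 (HingeData int_hinge)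

lemma stableWeights_congr {K : Type*} [Field K] {n r : ℕ} {x x' : Fin n → Fin r → ℝ}
    {y y' : Fin r → ℝ} (h : StableWeights K x y) (hx : ∀ j l, ∃ m : ℤ, x j l = x' j l + m)
    (hy : ∀ l, ∃ m : ℤ, y l = y' l + m) : StableWeights K x' y' := by
  obtain ⟨β, P, w, e, h1, h2, h3, h4, ⟨ρ, h5⟩, h6, h7, h8⟩ := h
  refine ⟨β, P, w, e, h1, h2, h3, fun j => ?_, ⟨ρ, fun l => ?_⟩, h6, h7, h8⟩
  · obtain ⟨σ, hσ⟩ := h4 j
    refine ⟨σ, fun l => ?_⟩
    obtain ⟨m, hm⟩ := hσ l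
    obtain ⟨m', hm'⟩ := hx j (σ l)
    exact ⟨m' + m, by rw [hm, hm']; push_cast; ring⟩
  · obtain ⟨m, hm⟩ := h5 l
    obtain ⟨m', hm'⟩ := hy (ρ l)
    exact ⟨m' + m, by rw [hm, hm']; push_cast; ring⟩

/-- The hinge inequalities. -/
theorem hinge_of_stable {r N : ℕ} (hN : 0 < N) (e : Fin 2 → Fin r → ℤ) (e' : Fin r → ℤ) (a : ℤ)
    (hst : StableWeights ℂ (fun j l => (a : ℝ) * ((e j l : ℝ) / N))
      (fun l => (a : ℝ) * ((e' l : ℝ) / N)))
    {j0 j1 : Fin 2} (hj : j0 ≠ j1) (τ : ℤ) (hτ : ¬ 2 ∣ τ) :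
    HingeData (2 * N) (fun l => 2 * a * e j0 l) (fun l => 2 * a * e j1 l)
      (fun l => 2 * a * e' l) τ := by
  have hNR : (N : ℝ) ≠ 0 := by exact_mod_cast hN.ne'
  have h1 := stableWeights_shift hst j0 (-(τ : ℝ) / ((2 * N : ℕ) : ℝ))
  have h2 : StableWeights ℂ
      (fun j l => ((2 * a * e j l + (if j = j0 then -τ else 0) : ℤ) : ℝ) / ((2 * N : ℕ) : ℝ))
      (fun l => ((2 * a * e' l - τ : ℤ) : ℝ) / ((2 * N : ℕ) : ℝ)) := by
    refine stableWeights_congr h1 (fun j l => ⟨0, ?_⟩) (fun l => ⟨0, ?_⟩)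
    · split_ifs
      · push_cast
        field_simp
        ring
      · push_cast
        field_simp
        ring
    · push_cast
      field_simp
      ring
  obtain ⟨Y, Z, ρ, hY, hZ, hs, hθ⟩ := int_hinge (2 * N) (by omega)
    (fun j l => 2 * a * e j l + (if j = j0 then -τ else 0)) (fun l => 2 * a * e' l - τ) h2 hj (by
      intro l hdvd
      simp only [if_true] at hdvd
      have h3 : (2 : ℤ) ∣ ((2 * N : ℕ) : ℤ) := ⟨N, by push_cast; ring⟩
      have h4 := h3.trans hdvd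
      have h5 : (2 : ℤ) ∣ 2 * a * e j0 l := ⟨a * e j0 l, by ring⟩
      have h6 := dvd_sub h4 h5
      have h7 : 2 * a * e j0 l + -τ - 2 * a * e j0 l = -τ := by ring
      rw [h7] at h6
      exact hτ ((dvd_neg).1 h6))
  simp only [if_true, ← sub_eq_add_neg] at hs hθ
  refine ⟨Y, Z, ρ, fun i => ?_, fun i => ?_, hs, hθ⟩
  · obtain ⟨m, hm⟩ := hY i
    refine ⟨m, ?_⟩
    rw [hm, if_neg hj.symm]
    ring
  · exact hZ i

/-- The case without resonance. -/
theorem nonres {r N : ℕ} (hN : 1 < N) (hr : 0 < r) (e : Fin 2 → Fin r → ℤ) (e' : Fin r → ℤ)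
    (hsum : ∑ l, e 0 l + ∑ l, e 1 l = ∑ l, e' l)
    (h1 : ∀ j i k, IsCoprime (e j i - e j k) (N : ℤ) ∨ (N : ℤ) ∣ e j i - e j k)
    (h2 : ∀ i k, IsCoprime (e' i - e' k) (N : ℤ) ∨ (N : ℤ) ∣ e' i - e' k)
    (h3 : ∀ i j k, IsCoprime (e 0 i + e 1 j - e' k) (N : ℤ))
    (h4 : (r : ℤ) ^ 2 ≤ cong N (e 0) + cong N (e 1) + cong N e')
    (hst : ∀ a : ℤ, IsCoprime a (N : ℤ) →
      StableWeights ℂ (fun j l => (a : ℝ) * ((e j l : ℝ) / N))
        (fun l => (a : ℝ) * ((e' l : ℝ) / N))) : False := by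
  refine arith_three hN hr e e' hsum h1 h2 h3 h4 fun a ha j0 j1 hj τ hτ => ?_
  have haN : IsCoprime a (N : ℤ) := ha.of_isCoprime_of_dvd_right (by
    exact_mod_cast Dvd.intro_left 2 rfl)
  exact hinge_of_stable (by omega) e e' a (hst a haN) hj τ hτ

end Pool.Agent.R340.HK
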