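import Pool.Agent.R340.HK.Nonres

set_option autoImplicit false

/-!
Three points with classes of exponents of equal multiplicities, one of them with two classes: there
is no resonance.
-/

open Polynomial Finset

namespace Pool.Agent.R340.HK

open Pool.Agent.Y227.SS Pool.Agent.W432.WB Pool.Agent.W432.HK Pool.Agent.Y227.SO
open Pool.Agent.R340.SY

/-- The number of the values congruent to `v`. -/
def cnt {n : ℕ} (N : ℕ) (f : Fin n → ℤ) (v : ℤ) : ℕ := (univ.filter fun l => (N : ℤ) ∣ f l - v).card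

section cnt

variable {n N c : ℕ} {f : Fin n → ℤ}

lemma cnt_congr {v v' : ℤ} (h : (N : ℤ) ∣ v - v') : cnt N f v = cnt N f v' := by
  unfold cnt
  congr 1
  ext l
  simp only [mem_filter, mem_univ, true_and]
  constructor
  · intro h1
    have h2 := dvd_add h1 h
    have h3 : f l - v + (v - v') = f l - v' := by ring
    rwa [h3] at h2
  · intro h1
    have h2 := dvd_sub h1 h
    have h3 : f l - v' - (v - v') = f l - v := by ring
    rwa [h3] at h2

lemma cnt_of (hc : ∀ l, cnt N f (f l) = c) {v : ℤ} (h : ∃ l, (N : ℤ) ∣ f l - v) : cnt N f v = c := by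
  obtain ⟨l, hl⟩ := h
  rw [← hc l]
  exact (cnt_congr hl).symm

lemma exists_of_cnt {v : ℤ} (h : cnt N f v ≠ 0) : ∃ l, (N : ℤ) ∣ f l - v := by
  obtain ⟨l, hl⟩ := card_pos.1 (Nat.pos_of_ne_zero h)
  exact ⟨l, (mem_filter.1 hl).2⟩

lemma cnt_le (hc : ∀ l, cnt N f (f l) = c) (v : ℤ) : cnt N f v ≤ c := by
  by_cases h : cnt N f v = 0
  · omega
  · exact (cnt_of hc (exists_of_cnt h)).le

end cnt

/-- The counting argument. -/
theorem core_contra {n N : ℕ} (hodd : Odd N) {fA fB fC : Fin n → ℤ} {cA cB cC : ℕ}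
    (hA : ∀ l, cnt N fA (fA l) = cA) (hB : ∀ l, cnt N fB (fB l) = cB)
    (hC : ∀ l, cnt N fC (fC l) = cC) (hsum : cA + cB + cC = n) (h2 : 2 * cC = n)
    (hB0 : 0 < cB)
    (hsym : ∀ α β γ : ℤ, (∃ l, (N : ℤ) ∣ fA l - α) → (∃ l, (N : ℤ) ∣ fB l - β) →
      (∃ l, (N : ℤ) ∣ fC l - γ) → (N : ℤ) ∣ α + β + γ → ∀ r : ℤ, ¬ (N : ℤ) ∣ r →
      cnt N fA (α + r) + cnt N fB (β + r) + cnt N fC (γ + r) =
        cnt N fA (α - r) + cnt N fB (β - r) + cnt N fC (γ - r))
    {α β γ : ℤ} (hα : ∃ l, (N : ℤ) ∣ fA l - α) (hβ : ∃ l, (N : ℤ) ∣ fB l - β)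
    (hγ : ∃ l, (N : ℤ) ∣ fC l - γ) (hres : (N : ℤ) ∣ α + β + γ) : False := by
  classical
  have hN2 : IsCoprime (N : ℤ) 2 := by
    have := (Nat.coprime_two_right).2 hodd
    exact_mod_cast this.isCoprime
  have hCγ := cnt_of hC hγ
  -- the other class at the third point
  obtain ⟨l1, hl1⟩ : ∃ l, ¬ (N : ℤ) ∣ fC l - γ := by
    by_contra hcon
    push Not at hcon
    have h3 : cnt N fC γ = n := by
      unfold cnt
      rw [filter_true_of_mem fun l _ => hcon l, card_univ, Fintype.card_fin]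
    omega
  set c := fC l1 - γ with hc
  have hc0 : ¬ (N : ℤ) ∣ c := hl1
  have h2c : ¬ (N : ℤ) ∣ 2 * c := fun h => hc0 (hN2.dvd_of_dvd_mul_left h)
  have hCc : cnt N fC (γ + c) = cC := cnt_of hC ⟨l1, by
    have : fC l1 - (γ + c) = 0 := by rw [hc]; ring
    rw [this]
    exact dvd_zero _⟩
  have hclasses : ∀ l, (N : ℤ) ∣ fC l - γ ∨ (N : ℤ) ∣ fC l - (γ + c) := by
    have hdisj : Disjoint (univ.filter fun l => (N : ℤ) ∣ fC l - γ)
        (univ.filter fun l => (N : ℤ) ∣ fC l - (γ + c)) := by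
      rw [disjoint_left]
      intro l h3 h4
      apply hc0
      have h5 := dvd_sub (mem_filter.1 h3).2 (mem_filter.1 h4).2
      have h6 : fC l - γ - (fC l - (γ + c)) = c := by ring
      rwa [h6] at h5
    have hcard := card_union_of_disjoint hdisj
    have h3 : ((univ.filter fun l => (N : ℤ) ∣ fC l - γ) ∪
        (univ.filter fun l => (N : ℤ) ∣ fC l - (γ + c))).card = n := by
      rw [hcard]
      unfold cnt at hCγ hCc
      rw [hCγ, hCc]
      omega
    have h4 := (card_eq_iff_eq_univ _).1 (by rw [h3, Fintype.card_fin] :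
      ((univ.filter fun l => (N : ℤ) ∣ fC l - γ) ∪
        (univ.filter fun l => (N : ℤ) ∣ fC l - (γ + c))).card = Fintype.card (Fin n))
    intro l
    have h5 : l ∈ ((univ.filter fun l => (N : ℤ) ∣ fC l - γ) ∪
        (univ.filter fun l => (N : ℤ) ∣ fC l - (γ + c))) := by
      rw [h4]
      exact mem_univ _
    rcases mem_union.1 h5 with h6 | h6
    · exact Or.inl (mem_filter.1 h6).2
    · exact Or.inr (mem_filter.1 h6).2
  have hzero : ∀ v : ℤ, ¬ (N : ℤ) ∣ v - γ → ¬ (N : ℤ) ∣ v - (γ + c) → cnt N fC v = 0 := by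
    intro v h3 h4
    by_contra h5
    obtain ⟨l, hl⟩ := exists_of_cnt h5
    rcases hclasses l with h6 | h6
    · apply h3
      have h7 := dvd_sub h6 hl
      have h8 : fC l - γ - (fC l - v) = v - γ := by ring
      rwa [h8] at h7
    · apply h4
      have h7 := dvd_sub h6 hl
      have h8 : fC l - (γ + c) - (fC l - v) = v - (γ + c) := by ring
      rwa [h8] at h7
  have hz1 : cnt N fC (γ - c) = 0 := by
    apply hzero
    · intro h
      apply hc0
      have h8 : γ - c - γ = -c := by ring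
      rw [h8] at h
      exact (dvd_neg).1 h
    · intro h
      apply h2c
      have h8 : γ - c - (γ + c) = -(2 * c) := by ring
      rw [h8] at h
      exact (dvd_neg).1 h
  have hz2 : cnt N fC (γ + c + c) = 0 := by
    apply hzero
    · intro h
      apply h2c
      have h8 : γ + c + c - γ = 2 * c := by ring
      rwa [h8] at h
    · intro h
      apply hc0
      have h8 : γ + c + c - (γ + c) = c := by ring
      rwa [h8] at h
  have s1 := hsym α β γ hα hβ hγ hres c hc0
  rw [hCc, hz1] at s1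
  have la := cnt_le hA (α - c)
  have lb := cnt_le hB (β - c)
  have ea : cnt N fA (α - c) = cA := by omega
  have eb : cnt N fB (β - c) = cB := by omega
  have hcA0 : 0 < cA := by
    rw [← cnt_of hA hα]
    obtain ⟨l, hl⟩ := hα
    exact card_pos.2 ⟨l, mem_filter.2 ⟨mem_univ _, hl⟩⟩
  have s2 := hsym (α - c) β (γ + c) (exists_of_cnt (by omega)) hβ (exists_of_cnt (by
      rw [hCc]
      omega)) (by
      have h8 : α - c + β + (γ + c) = α + β + γ := by ring
      rwa [h8]) (-c) (fun h => hc0 ((dvd_neg).1 h))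
  have e1 : γ + c + -c = γ := by ring
  have e2 : γ + c - -c = γ + c + c := by ring
  have e3 : β + -c = β - c := by ring
  rw [e1, e2, e3, hCγ, hz2, eb] at s2
  have l1 := cnt_le hA (α - c - -c)
  have l2 := cnt_le hB (β - -c)
  omega

section sym

variable {m n N : ℕ} {lam : Fin m → Fin n → ℚ} {phi : Fin n → ℚ} {E : Option (Fin m) → Fin n → ℤ}

lemma sum_three (P : Fin 3 ↪ Option (Fin m)) (f : Option (Fin m) → ℕ)
    (hf : ∀ x, x ∉ Set.range P → f x = 0) : ∑ x, f x = ∑ i, f (P i) := by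
  classical
  rw [← Finset.sum_add_sum_compl (univ.map P) f, Finset.sum_map, add_eq_left]
  refine sum_eq_zero fun x hx => hf x fun ⟨i, hi⟩ => ?_
  rw [Finset.mem_compl] at hx
  exact hx (Finset.mem_map.2 ⟨i, mem_univ _, hi⟩)

/-- The symmetry for three points. -/
theorem sym_three {b : Fin (n + 1) → ℤ[X]} {α : Fin m → AlgebraicClosure ℚ} (hm : 1 ≤ m)
    (hn : 2 ≤ n) (hF : FuchsianWith b α lam phi) (hirr : ¬ Reducible b) (hN : N.Prime)
    (hbad : ¬ BadClass b N) (hlam : ∀ j l, lam j l = (E (some j) l : ℚ) / N)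
    (hphi : ∀ l, phi l = -(E none l : ℚ) / N) (P : Fin 3 ↪ Option (Fin m))
    (hint : ∀ x, x ∉ Set.range P → ∀ l, (N : ℤ) ∣ E x l) (c : Fin 3 → ℕ) (hc : ∑ i, c i = n)
    (β : Fin 3 → ℤ) (hβ : ∀ i, cnt N (E (P i)) (β i) = c i) (hres : (N : ℤ) ∣ ∑ i, β i) (r : ℤ)
    (hr : ¬ (N : ℤ) ∣ r) :
    ∑ i, cnt N (E (P i)) (β i + r) = ∑ i, cnt N (E (P i)) (β i - r) := by
  classical
  have hNq : (N : ℚ) ≠ 0 := by exact_mod_cast hN.ne_zero
  have hCD : CommonDen lam phi N := by
    refine ⟨hN.pos, fun j l => ⟨E (some j) l, ?_⟩, fun l => ⟨-E none l, ?_⟩⟩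
    · rw [hlam]
      field_simp
    · rw [hphi]
      push_cast
      field_simp
  obtain ⟨F, hFu⟩ := fuchs_int hm hn hF
  set β' : Option (Fin m) → ℤ := Function.extend P β 0 with hβ'
  have hb1 : ∀ i, β' (P i) = β i := fun i => P.injective.extend_apply _ _ i
  have hb2 : ∀ x, x ∉ Set.range P → β' x = 0 := by
    intro x hx
    exact Function.extend_apply' _ _ x (by simpa using hx)
  obtain ⟨s, hs⟩ := hres
  have hsumβ : ∑ x, β' x = ∑ i, β i := by
    rw [← Finset.sum_add_sum_compl (univ.map P) β', Finset.sum_map,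
      sum_congr rfl fun i _ => hb1 i, add_eq_left]
    refine sum_eq_zero fun x hx => hb2 x fun ⟨i, hi⟩ => ?_
    rw [Finset.mem_compl] at hx
    exact hx (Finset.mem_map.2 ⟨i, mem_univ _, hi⟩)
  have hε : ∑ x, ((β' x : ℚ) / N) = s := by
    rw [← sum_div]
    have h1 : ((∑ x, β' x : ℤ) : ℚ) = ((N * s : ℤ) : ℚ) := by rw [hsumβ, hs]
    push_cast at h1
    rw [h1]
    field_simp
  set D : Option (Fin m) → Fin n → ℤ := fun x l => E x l - β' x with hD
  have hres := fun (u : ℤ) (hu : IsCoprime u (N : ℤ)) => residues_ge hm hn hF hirr hCD hbad hε hN.pos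
    (D := D) (by
      intro x l
      rw [hD]
      cases x with
      | none =>
        simp only [expo, hphi]
        push_cast
        field_simp
      | some j =>
        simp only [expo, hlam]
        push_cast
        field_simp) hFu u hu
  have hnot : ∀ x, x ∉ Set.range P → ∀ l, (N : ℤ) ∣ D x l := by
    intro x hx l
    simp only [hD, hb2 x hx, sub_zero]
    exact hint x hx l
  have hcountM : (univ.filter fun t : Option (Fin m) × Fin n => ¬ (N : ℤ) ∣ D t.1 t.2).card ≤
      2 * n := by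
    rw [card_filter, Fintype.sum_prod_type' (fun x l => if ¬ (N : ℤ) ∣ D x l then 1 else 0),
      sum_three P (fun x => ∑ l, if ¬ (N : ℤ) ∣ D x l then 1 else 0) (fun x hx =>
        sum_eq_zero fun l _ => if_neg (not_not.2 (hnot x hx l)))]
    have h1 : ∀ i, (∑ l, if ¬ (N : ℤ) ∣ D (P i) l then 1 else 0) + c i = n := by
      intro i
      rw [← hβ i]
      unfold cnt
      rw [card_filter, ← sum_add_distrib]
      have h2 : ∀ l : Fin n, ((if ¬ (N : ℤ) ∣ D (P i) l then 1 else 0) +
          if (N : ℤ) ∣ E (P i) l - β i then 1 else 0) = 1 := by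
        intro l
        have h3 : D (P i) l = E (P i) l - β i := by simp only [hD, hb1]
        rw [h3]
        by_cases h4 : (N : ℤ) ∣ E (P i) l - β i
        · rw [if_neg (not_not.2 h4), if_pos h4]
        · rw [if_pos h4, if_neg h4]
      rw [sum_congr rfl fun l _ => h2 l, sum_const, card_univ, Fintype.card_fin, smul_eq_mul, mul_one]
    have h2 : ∑ i, ((∑ l, if ¬ (N : ℤ) ∣ D (P i) l then 1 else 0) + c i) = 3 * n := by
      rw [sum_congr rfl fun i _ => h1 i, sum_const, card_univ, Fintype.card_fin, smul_eq_mul]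
    rw [sum_add_distrib, hc] at h2
    omega
  have hs := symmetric_of_residues hN.pos D hres hcountM (Or.inl hN) r
  rw [card_filter, card_filter, Fintype.sum_prod_type' (fun x l => if (N : ℤ) ∣ D x l - r then 1 else 0),
    Fintype.sum_prod_type' (fun x l => if (N : ℤ) ∣ D x l + r then 1 else 0),
    sum_three P (fun x => ∑ l, if (N : ℤ) ∣ D x l - r then 1 else 0) (fun x hx =>
        sum_eq_zero fun l _ => if_neg fun h => hr (by
          have h1 := dvd_sub (hnot x hx l) h
          have h2 : D x l - (D x l - r) = r := by ring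
          rwa [h2] at h1)),
    sum_three P (fun x => ∑ l, if (N : ℤ) ∣ D x l + r then 1 else 0) (fun x hx =>
        sum_eq_zero fun l _ => if_neg fun h => hr (by
          have h1 := dvd_sub h (hnot x hx l)
          have h2 : D x l + r - D x l = r := by ring
          rwa [h2] at h1))] at hs
  have e1 : ∀ i, cnt N (E (P i)) (β i + r) = ∑ l, if (N : ℤ) ∣ D (P i) l - r then 1 else 0 := by
    intro i
    unfold cnt
    rw [card_filter]
    refine sum_congr rfl fun l _ => ?_
    have h3 : D (P i) l - r = E (P i) l - (β i + r) := by simp only [hD, hb1]; ring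
    rw [h3]
  have e2 : ∀ i, cnt N (E (P i)) (β i - r) = ∑ l, if (N : ℤ) ∣ D (P i) l + r then 1 else 0 := by
    intro i
    unfold cnt
    rw [card_filter]
    refine sum_congr rfl fun l _ => ?_
    have h3 : D (P i) l + r = E (P i) l - (β i - r) := by simp only [hD, hb1]; ring
    rw [h3]
  rw [sum_congr rfl fun i _ => e1 i, sum_congr rfl fun i _ => e2 i]
  exact hs

end sym

end Pool.Agent.R340.HK
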