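import Pool.Agent.R340.HK.Final

set_option autoImplicit false

/-!
Three points in arbitrary order, one of them infinity.
-/

open Polynomial Finset

namespace Pool.Agent.R340.HK

open Pool.Agent.Y227.SS Pool.Agent.W432.WB Pool.Agent.W432.HK Pool.Agent.Y227.SO

variable {m n N : ℕ} {lam : Fin m → Fin n → ℚ} {phi : Fin n → ℚ} {E : Option (Fin m) → Fin n → ℤ}
  {b : Fin (n + 1) → ℤ[X]} {α : Fin m → AlgebraicClosure ℚ}

lemma cong_card (f : Fin n → ℤ) :
    cong N f = ((univ.filter fun t : Fin n × Fin n => (N : ℤ) ∣ f t.1 - f t.2).card : ℤ) := by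
  unfold cong
  rw [card_filter]
  push_cast
  rw [Fintype.sum_prod_type' (fun i j => if (N : ℤ) ∣ f i - f j then (1 : ℤ) else 0)]

lemma concl_of_bad (hN : 0 < N) (h : BadClass b N) : BadClass b N ∧ (Cond b → FullAlg b) := by
  refine ⟨h, fun hc => ?_⟩
  obtain ⟨a, ha, P₀, hP₀⟩ := h
  obtain ⟨p, hp1, hp2, hp3, hp4⟩ := cond_infinite hc hN ha P₀
  exact absurd hp4 (hP₀ p hp1 hp2 hp3)

theorem part_one (hn : 2 ≤ n) (hF : FuchsianWith b α lam phi) (hirr : ¬ Reducible b)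
    (hN : 1 < N) (hlam : ∀ j l, lam j l = (E (some j) l : ℚ) / N)
    (hphi : ∀ l, phi l = -(E none l : ℚ) / N) (P : Fin 3 → Option (Fin m))
    (hP : Function.Injective P) (hinf : ∃ i, P i = none)
    (hint : ∀ x, x ∉ Set.range P → ∀ l, (N : ℤ) ∣ E x l)
    (hdiff : ∀ i l l', IsCoprime (E (P i) l - E (P i) l') (N : ℤ) ∨
      (N : ℤ) ∣ E (P i) l - E (P i) l')
    (hres : ∀ κ : Fin 3 → Fin n, IsCoprime (∑ i, E (P i) (κ i)) (N : ℤ))
    (hind : n ^ 2 ≤ ∑ i, (univ.filter fun t : Fin n × Fin n =>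
      (N : ℤ) ∣ E (P i) t.1 - E (P i) t.2).card) : BadClass b N := by
  by_contra hbad
  obtain ⟨i, hi⟩ := hinf
  set σ : Equiv.Perm (Fin 3) := Equiv.swap i 2 with hσ
  let P' : Fin 3 ↪ Option (Fin m) := ⟨fun k => P (σ k), hP.comp σ.injective⟩
  have hP' : ∀ k, P' k = P (σ k) := fun _ => rfl
  refine nonres_three hn hF hirr hN hbad hlam hphi P' ?_ ?_ ?_ ?_ ?_
  · rw [hP', hσ, Equiv.swap_apply_right]
    exact hi
  · intro x hx
    refine hint x fun ⟨k, hk⟩ => hx ⟨σ.symm k, ?_⟩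
    rw [hP', Equiv.apply_symm_apply]
    exact hk
  · intro k l l'
    exact hdiff (σ k) l l'
  · intro κ
    have h1 : ∑ k, E (P' k) (κ k) = ∑ k, E (P k) (κ (σ.symm k)) := by
      rw [← Equiv.sum_comp σ (fun k => E (P k) (κ (σ.symm k)))]
      refine sum_congr rfl fun k _ => ?_
      rw [Equiv.symm_apply_apply, hP']
    rw [h1]
    exact hres fun k => κ (σ.symm k)
  · have h1 : ∑ k, cong N (E (P' k)) = ∑ k, cong N (E (P k)) :=
      Equiv.sum_comp σ (fun k => cong N (E (P k)))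
    rw [h1, sum_congr rfl fun k _ => cong_card (E (P k))]
    exact_mod_cast hind

theorem part_two (hn : 0 < n) (hF : FuchsianWith b α lam phi) (hirr : ¬ Reducible b)
    (hN : N.Prime) (hlam : ∀ j l, lam j l = (E (some j) l : ℚ) / N)
    (hphi : ∀ l, phi l = -(E none l : ℚ) / N) (P : Fin 3 → Option (Fin m))
    (hP : Function.Injective P) (hinf : ∃ i, P i = none)
    (hint : ∀ x, x ∉ Set.range P → ∀ l, (N : ℤ) ∣ E x l) (c : Fin 3 → ℕ)
    (hc : ∀ i l, (univ.filter fun l' => (N : ℤ) ∣ E (P i) l' - E (P i) l).card = c i)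
    (hsum : ∑ i, c i = n) (h2 : ∃ i, 2 * c i = n) : BadClass b N := by
  obtain ⟨i, hi⟩ := hinf
  set σ : Equiv.Perm (Fin 3) := Equiv.swap i 2 with hσ
  let P' : Fin 3 ↪ Option (Fin m) := ⟨fun k => P (σ k), hP.comp σ.injective⟩
  have hP' : ∀ k, P' k = P (σ k) := fun _ => rfl
  refine bad_of_types hn hF hirr hN hlam hphi P' ?_ ?_ (fun k => c (σ k)) ?_ ?_ ?_
  · rw [hP', hσ, Equiv.swap_apply_right]
    exact hi
  · intro x hx
    refine hint x fun ⟨k, hk⟩ => hx ⟨σ.symm k, ?_⟩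
    rw [hP', Equiv.apply_symm_apply]
    exact hk
  · intro k l
    exact hc (σ k) l
  · rw [Equiv.sum_comp σ c]
    exact hsum
  · obtain ⟨k, hk⟩ := h2
    exact ⟨σ.symm k, by rw [Equiv.apply_symm_apply]; exact hk⟩

end Pool.Agent.R340.HK
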